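import Mathlib

/-!
# Certificate for the Lyapunov functional

Integer polynomials are lists of coefficients.  `genLhs` is the local drift expression, written once
and used both for integer polynomials and for real numbers.  The two tables (for
`2/3 ≤ α < 1`, in the variable `1 - α`, and for `0 < α ≤ 2/3`, in the variable `α`) were found by
linear programming; here they are only checked.
-/

namespace Pool.Agent.H.MP_c6a9e6_pr

/-! ### Integer polynomials as lists -/

/-- Evaluation of a coefficient list. -/
def ev (x : ℝ) : List Int → ℝ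
  | [] => 0
  | c :: l => (c : ℝ) + x * ev x l

def padd : List Int → List Int → List Int
  | [], b => b
  | a, [] => a
  | a :: l, b :: m => (a + b) :: padd l m

def pscale (c : Int) (l : List Int) : List Int := l.map (c * ·)

def pmul : List Int → List Int → List Int
  | [], _ => []
  | a :: l, b => padd (pscale a b) (0 :: pmul l b)

def pneg (l : List Int) : List Int := l.map (- ·)

lemma ev_padd (x : ℝ) : ∀ a b, ev x (padd a b) = ev x a + ev x b
  | [], b => by simp [padd, ev]
  | a :: l, [] => by simp [padd, ev]
  | a :: l, b :: m => by simp only [padd, ev, ev_padd x l m]; push_cast; ring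

lemma ev_pscale (x : ℝ) (c : Int) : ∀ a, ev x (pscale c a) = c * ev x a
  | [] => by simp [pscale, ev]
  | a :: l => by
    have := ev_pscale x c l
    simp only [pscale, List.map_cons, ev] at this ⊢
    rw [this]; push_cast; ring

lemma ev_pneg (x : ℝ) : ∀ a, ev x (pneg a) = - ev x a
  | [] => by simp [pneg, ev]
  | a :: l => by
    have := ev_pneg x l
    simp only [pneg, List.map_cons, ev] at this ⊢
    rw [this]; push_cast; ring

lemma ev_pmul (x : ℝ) : ∀ a b, ev x (pmul a b) = ev x a * ev x b
  | [], b => by simp [pmul, ev]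
  | a :: l, b => by
    simp only [pmul, ev_padd, ev_pscale, ev, ev_pmul x l b]; push_cast; ring

/-! ### Nonpositivity on an interval -/

/-- Homogeneous evaluation. -/
def hev (x w : ℝ) : List Int → ℝ
  | [] => 0
  | c :: l => (c : ℝ) * w ^ l.length + x * hev x w l

/-- Coefficients of `(a x + w) ^ D`. -/
def row (a : Int) : ℕ → List Int
  | 0 => [1]
  | D + 1 => List.zipWith (· + ·) (0 :: pscale a (row a D)) (row a D ++ [0])

/-- Coefficients in `x ^ i w ^ (D - i)` of `N ^ D` times the polynomial, where `a x + w = N`. -/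
def bern (N a : Int) : ℕ → List Int → List Int
  | D, [] => List.replicate (D + 1) 0
  | 0, c :: _ => [c]
  | D + 1, c :: l => List.zipWith (· + ·) (pscale c (row a (D + 1))) (0 :: pscale N (bern N a D l))

lemma row_length (a : Int) : ∀ D, (row a D).length = D + 1
  | 0 => rfl
  | D + 1 => by simp [row, pscale, row_length a D]

lemma bern_length (N a : Int) : ∀ D l, (bern N a D l).length = D + 1
  | D, [] => by cases D <;> simp [bern]
  | 0, c :: _ => by simp [bern]
  | D + 1, c :: l => by simp [bern, pscale, row_length, bern_length N a D l]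

lemma hev_zipWith (x w : ℝ) : ∀ a b : List Int, a.length = b.length →
    hev x w (List.zipWith (· + ·) a b) = hev x w a + hev x w b
  | [], [], _ => by simp [hev]
  | a :: l, b :: m, h => by
    have h' : l.length = m.length := by simpa using h
    simp only [List.zipWith_cons_cons, hev, hev_zipWith x w l m h', List.length_zipWith, h',
      min_self]
    push_cast; ring
  | [], _ :: _, h => by simp at h
  | _ :: _, [], h => by simp at h

lemma hev_pscale (x w : ℝ) (c : Int) : ∀ a, hev x w (pscale c a) = c * hev x w a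
  | [] => by simp [pscale, hev]
  | a :: l => by
    have := hev_pscale x w c l
    simp only [pscale, List.map_cons, hev, List.length_map] at this ⊢
    rw [this]; push_cast; ring

lemma hev_append_zero (x w : ℝ) : ∀ a, hev x w (a ++ [0]) = w * hev x w a
  | [] => by simp [hev]
  | a :: l => by
    simp only [List.cons_append, hev, hev_append_zero x w l, List.length_append,
      List.length_cons, List.length_nil]
    ring

lemma hev_row (x w : ℝ) (a : Int) : ∀ D, hev x w (row a D) = (a * x + w) ^ D
  | 0 => by simp [row, hev]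
  | D + 1 => by
    rw [row, hev_zipWith, hev_append_zero, hev, hev_pscale, hev_row x w a D]
    · push_cast; ring
    · simp [pscale]

lemma hev_replicate (x w : ℝ) : ∀ n, hev x w (List.replicate n 0) = 0
  | 0 => by simp [hev]
  | n + 1 => by simp [List.replicate_succ, hev, hev_replicate x w n]

lemma hev_bern (x w : ℝ) (N a : Int) (h : (a : ℝ) * x + w = N) : ∀ D l, l.length ≤ D + 1 →
    hev x w (bern N a D l) = (N : ℝ) ^ D * ev x l
  | D, [], _ => by
    have : bern N a D [] = List.replicate (D + 1) 0 := by cases D <;> rfl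
    rw [this, hev_replicate]; simp [ev]
  | 0, [c], _ => by simp [bern, hev, ev]
  | 0, c :: d :: l, hl => by simp at hl
  | D + 1, c :: l, hl => by
    have hl' : l.length ≤ D + 1 := by simpa using hl
    rw [bern, hev_zipWith, hev_pscale, hev_row, hev, hev_pscale, hev_bern x w N a h D l hl', h, ev]
    · push_cast; ring
    · simp [pscale, row_length, bern_length]

lemma hev_nonpos (x w : ℝ) (hx : 0 ≤ x) (hw : 0 ≤ w) : ∀ l : List Int,
    l.all (fun c => decide (c ≤ 0)) = true → hev x w l ≤ 0
  | [], _ => by simp [hev]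
  | c :: l, h => by
    simp only [List.all_cons, Bool.and_eq_true, decide_eq_true_eq] at h
    have h1 : (c : ℝ) ≤ 0 := by exact_mod_cast h.1
    have h2 := hev_nonpos x w hx hw l h.2
    have h3 : (c : ℝ) * w ^ l.length ≤ 0 := mul_nonpos_of_nonpos_of_nonneg h1 (by positivity)
    have h4 : x * hev x w l ≤ 0 := mul_nonpos_of_nonneg_of_nonpos hx h2
    simp only [hev]; linarith

/-- The check that a polynomial is nonpositive for `0 ≤ x`, `a x ≤ N`. -/
def nonposCheck (N a : Int) (D : ℕ) (l : List Int) : Bool :=
  decide (l.length ≤ D + 1) && (bern N a D l).all (fun c => decide (c ≤ 0))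

lemma ev_nonpos {N a : Int} {D : ℕ} {l : List Int} (h : nonposCheck N a D l = true) {x : ℝ}
    (hN : 0 < N) (hx : 0 ≤ x) (hx' : (a : ℝ) * x ≤ N) : ev x l ≤ 0 := by
  simp only [nonposCheck, Bool.and_eq_true, decide_eq_true_eq] at h
  have hw : (0 : ℝ) ≤ N - a * x := by linarith
  have h1 := hev_nonpos x (N - a * x) hx hw _ h.2
  rw [hev_bern x (N - a * x) N a (by ring) D l h.1] at h1
  have hN' : (0 : ℝ) < (N : ℝ) ^ D := by
    have : (0 : ℝ) < N := by exact_mod_cast hN
    positivity
  by_contra hcon
  push Not at hcon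
  have := mul_pos hN' hcon
  linarith

/-! ### The local drift expression over a general ring of coefficients -/

section gen
variable {K : Type} (zero one al ep : K) (add mul : K → K → K) (neg : K → K)

/-- `P(y'_j = 0)` given `(y_j, y_{j+1}, y_{j+2}) = (a, b, c)`. -/
def qG : Bool → Bool → Bool → K
  | true, true, _ => zero
  | false, true, _ => al
  | true, false, false => ep
  | true, false, true => one
  | false, false, false => one
  | false, false, true => ep

/-- `P(y'_j = v)`. -/
def pG (v a b c : Bool) : K :=
  match v with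
  | false => qG zero one al ep a b c
  | true => add one (neg (qG zero one al ep a b c))

/-- expectation over one new symbol -/
def exG (a b c : Bool) (f : Bool → K) : K :=
  add (mul (pG zero one al ep add neg false a b c) (f false))
    (mul (pG zero one al ep add neg true a b c) (f true))

/-- new parse bit -/
def nextBit (β y : Bool) : Bool := !y && !β

/-- `kt` at a border `y_j = 0`, `y_{j+1} = 1`, else zero. -/
def bdG (kt : K) : Bool → Bool → K
  | false, true => kt
  | _, _ => zero

/-- The local drift expression. -/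
def genLhs (kt : K) (h : Bool → Bool → Bool → Bool → Bool → K)
    (psi : Bool → Bool → Bool → Bool → Bool → Bool → Bool → K)
    (β s w0 w1 w2 w3 w4 w5 : Bool) : K :=
  add (exG zero one al ep add mul neg w2 w1 w0 fun v0 =>
      exG zero one al ep add mul neg w3 w2 w1 fun v1 =>
      exG zero one al ep add mul neg w4 w3 w2 fun v2 =>
      exG zero one al ep add mul neg w5 w4 w3 fun v3 => h s v0 v1 v2 v3)
    (add (neg (h β w2 w3 w4 w5))
      (add (match s with
        | true => psi (nextBit β w2) false w1 w2 w3 w4 w5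
        | false => exG zero one al ep add mul neg w2 w1 w0 fun v0 =>
            psi (nextBit β w2) (!v0) w1 w2 w3 w4 w5)
        (add (neg (psi β s w0 w1 w2 w3 w4)) (bdG zero kt w2 w1))))

end gen

/-- The real version. -/
noncomputable abbrev realLhs (α kt : ℝ) (h : Bool → Bool → Bool → Bool → Bool → ℝ)
    (psi : Bool → Bool → Bool → Bool → Bool → Bool → Bool → ℝ)
    (β s w0 w1 w2 w3 w4 w5 : Bool) : ℝ :=
  genLhs 0 1 α (1 - α) (· + ·) (· * ·) (- ·) kt h psi β s w0 w1 w2 w3 w4 w5

/-- The polynomial version. -/
abbrev polyLhs (al ep kt : List Int) (h : Bool → Bool → Bool → Bool → Bool → List Int)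
    (psi : Bool → Bool → Bool → Bool → Bool → Bool → Bool → List Int)
    (β s w0 w1 w2 w3 w4 w5 : Bool) : List Int :=
  genLhs [] [1] al ep padd pmul pneg kt h psi β s w0 w1 w2 w3 w4 w5

lemma ev_qG (x : ℝ) (al ep : List Int) (a b c : Bool) :
    ev x (qG [] [1] al ep a b c) = qG 0 1 (ev x al) (ev x ep) a b c := by
  cases a <;> cases b <;> cases c <;> simp [qG, ev]

lemma ev_pG (x : ℝ) (al ep : List Int) (v a b c : Bool) :
    ev x (pG [] [1] al ep padd pneg v a b c) =
      pG 0 1 (ev x al) (ev x ep) (· + ·) (- ·) v a b c := by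
  cases v <;> simp [pG, ev_qG, ev_padd, ev_pneg, ev]

lemma ev_exG (x : ℝ) (al ep : List Int) (a b c : Bool) (f : Bool → List Int) :
    ev x (exG [] [1] al ep padd pmul pneg a b c f) =
      exG 0 1 (ev x al) (ev x ep) (· + ·) (· * ·) (- ·) a b c (fun v => ev x (f v)) := by
  simp [exG, ev_pG, ev_padd, ev_pmul]

lemma ev_genLhs (x : ℝ) (al ep kt : List Int) (h : Bool → Bool → Bool → Bool → Bool → List Int)
    (psi : Bool → Bool → Bool → Bool → Bool → Bool → Bool → List Int)
    (β s w0 w1 w2 w3 w4 w5 : Bool) :
    ev x (polyLhs al ep kt h psi β s w0 w1 w2 w3 w4 w5) =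
      genLhs 0 1 (ev x al) (ev x ep) (· + ·) (· * ·) (- ·) (ev x kt)
        (fun s a b c d => ev x (h s a b c d))
        (fun β s a b c d e => ev x (psi β s a b c d e)) β s w0 w1 w2 w3 w4 w5 := by
  simp only [polyLhs, genLhs, ev_padd, ev_exG, ev_pneg]
  congr 1
  congr 1
  congr 1
  · cases s <;> simp [ev_exG]
  · congr 1
    cases w2 <;> cases w1 <;> simp [ev, bdG]

/-! ### The tables -/

/-- index of a Boolean word -/
def ix (b : Bool) : ℕ := if b then 1 else 0

def look (T : List (List Int)) (i : ℕ) : List Int := T.getD i []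

def hiH : List (List Int) := [
  [3951, -5706, 15453],
  [-2392, 19959, 15651],
  [6000, -18000, 12168],
  [744, 4944, 14751],
  [2223, -6825, 468],
  [683, -1263, 2520],
  [-239, -6492, 270],
  [-2367, -3798, 81],
  [-2422, 6186, -13878],
  [-3962, 7260, -14103],
  [-298, -11925, -15543],
  [-2427, -3438, -13563],
  [-2931, 12675, -13491],
  [-4471, 18996, -11880],
  [-1894, -2391, -10260],
  [-4023, 6138, -14877]]

def hiPsi : List (List Int) := [
  [-849, -1968, 6255],
  [-849, -8757, 15210],
  [-849, -4530, 6642],
  [-849, -6828, 21546],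
  [691, -10311, 6309],
  [-2389, 1779, 2295],
  [-849, -6225, 477],
  [-849, -8307, 3015],
  [],
  [],
  [],
  [],
  [691, -10311, 6309],
  [-2389, 1779, 2295],
  [-849, -6225, 477],
  [-849, -8331, 3060],
  [-851, -3240, -6957],
  [-851, -8751, -20088],
  [-6000, 18000, -35397],
  [-2478, 2937, -20439],
  [-416, -3678, -20016],
  [-2422, 1968, 2007],
  [-6000, 24675, -45882],
  [-2502, 1587, -11844],
  [],
  [],
  [],
  [],
  [-416, -15504, -3744],
  [-2420, 1956, 2025],
  [-851, -12894, 18621],
  [-851, -8325, 3042],
  [5522, -15132, 22374],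
  [712, 7983, 23643],
  [4421, -26526, 39006],
  [810, 13140, -46710],
  [],
  [],
  [],
  [],
  [3832, -13635, 21879],
  [-749, 1737, 32229],
  [6000, -20424, 15291],
  [2268, 375, 17829],
  [],
  [],
  [],
  [],
  [-849, -1968, 6255],
  [-849, -8334, 32031],
  [-849, -1473, -21501],
  [-849, -5640, -6444],
  [],
  [],
  [],
  [],
  [-1358, 5049, 9],
  [-2445, 3918, 22707],
  [-340, -8814, -18540],
  [747, -17862, 4284],
  [],
  [],
  [],
  []]

def loH : List (List Int) := [
  [0, 47556, -33480, -27378],
  [0, 47196, -17550, -28188],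
  [8544, 4356, -10368, -2673],
  [0, -2628, 3348, -810],
  [43464, -18504, -14526, -13284],
  [34800, -10872, 11502, -31023],
  [77688, -69012, 9504, -9072],
  [90264, -84816, 5832, 891],
  [],
  [],
  [],
  [],
  [],
  [],
  [],
  []]

def loPsi : List (List Int) := [
  [0, 4968, 49842, -92664],
  [0, 4608, 65826, -108459],
  [8544, -38448, 115182, -115101],
  [0, -45216, 136134, -119718],
  [43464, -113436, 144126, -108702],
  [34800, -114372, 192024, -137943],
  [77688, -210600, 239868, -135027],
  [90264, -217668, 220464, -121203],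
  [0, -42444, 126738, -111861],
  [0, -42444, 127332, -112752],
  [0, -42804, 103194, -64719],
  [0, -42444, 127494, -112995],
  [0, -42444, 127494, -112914],
  [0, -42444, 127332, -110484],
  [0, -42444, 144936, -138996],
  [0, -42588, 129438, -115182],
  [0, 4968, 2646, -41310],
  [0, 4608, 18630, -48276],
  [8544, -38448, 30402, -35235],
  [0, -45216, 48546, -42606],
  [43464, -69984, 100818, -109350],
  [34800, -79164, 168966, -149121],
  [77688, -132516, 145476, -107244],
  [90264, -127404, 135648, -114858],
  [0, -42588, 127926, -113319],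
  [0, -42588, 127926, -113319],
  [0, -42804, 128952, -114372],
  [0, -42588, 127926, -113319],
  [0, -42588, 128304, -113805],
  [0, -42588, 128304, -113805],
  [0, -42588, 128682, -114291],
  [0, -42588, 129060, -114696]]

def hiHf (s v0 v1 v2 _v3 : Bool) : List Int := look hiH (8 * ix s + 4 * ix v0 + 2 * ix v1 + ix v2)

def hiPsif (β s w0 w1 w2 w3 _w4 : Bool) : List Int :=
  look hiPsi (32 * ix β + 16 * ix s + 8 * ix w0 + 4 * ix w1 + 2 * ix w2 + ix w3)

def loHf (_s v0 v1 v2 v3 : Bool) : List Int := look loH (8 * ix v0 + 4 * ix v1 + 2 * ix v2 + ix v3)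

def loPsif (_β _s w0 w1 w2 w3 w4 : Bool) : List Int :=
  look loPsi (16 * ix w0 + 8 * ix w1 + 4 * ix w2 + 2 * ix w3 + ix w4)

/-- The parse bit `β` is compatible with the two symbols `y_{j+1} = w1`, `y_{j+2} = w0`. -/
def okBit (β w1 w0 : Bool) : Bool :=
  match β, w1, w0 with
  | true, true, _ => false
  | false, false, true => false
  | _, _, _ => true

/-- all Boolean values -/
def allB (f : Bool → Bool) : Bool := f false && f true

lemma allB_iff (f : Bool → Bool) : allB f = true ↔ ∀ b, f b = true := by
  constructor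
  · intro h b
    simp only [allB, Bool.and_eq_true] at h
    cases b
    · exact h.1
    · exact h.2
  · intro h; simp [allB, h]

def mainCheck (N a : Int) (D : ℕ) (al ep kt : List Int)
    (h : Bool → Bool → Bool → Bool → Bool → List Int)
    (psi : Bool → Bool → Bool → Bool → Bool → Bool → Bool → List Int) : Bool :=
  allB fun β => allB fun w1 => allB fun w0 => !okBit β w1 w0 ||
    allB fun s => allB fun w2 => allB fun w3 => allB fun w4 => allB fun w5 =>
      nonposCheck N a D (polyLhs al ep kt h psi β s w0 w1 w2 w3 w4 w5)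

def signCheck (N a : Int) (D : ℕ)
    (psi : Bool → Bool → Bool → Bool → Bool → Bool → Bool → List Int) : Bool :=
  allB fun β => allB fun w1 => allB fun w0 => !okBit β w1 w0 ||
    allB fun w2 => allB fun w3 => allB fun w4 =>
      nonposCheck N a D (padd (psi β true w0 w1 w2 w3 w4) (pneg (psi β false w0 w1 w2 w3 w4)))

theorem hi_main : mainCheck 1 3 8 [1, -1] [0, 1] [0, 9] hiHf hiPsif = true := by decide +kernel

theorem hi_sign : signCheck 1 3 8 hiPsif = true := by decide +kernel

theorem lo_main : mainCheck 2 3 8 [0, 1] [1, -1] [0, 0, 388] loHf loPsif = true := by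
  decide +kernel

/-- A certificate over the reals for the parameter `α`. -/
structure RealCert (α : ℝ) where
  /-- the functional -/
  h : Bool → Bool → Bool → Bool → Bool → ℝ
  /-- the potential -/
  psi : Bool → Bool → Bool → Bool → Bool → Bool → Bool → ℝ
  /-- the gain per border -/
  c : ℝ
  c_pos : 0 < c
  main : ∀ β s w0 w1 w2 w3 w4 w5, okBit β w1 w0 = true →
    realLhs α c h psi β s w0 w1 w2 w3 w4 w5 ≤ 0
  sign : ∀ β w0 w1 w2 w3 w4, okBit β w1 w0 = true →
    psi β true w0 w1 w2 w3 w4 ≤ psi β false w0 w1 w2 w3 w4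

lemma mainCheck_spec {N a : Int} {D : ℕ} {al ep kt : List Int}
    {h : Bool → Bool → Bool → Bool → Bool → List Int}
    {psi : Bool → Bool → Bool → Bool → Bool → Bool → Bool → List Int}
    (hc : mainCheck N a D al ep kt h psi = true) {β s w0 w1 w2 w3 w4 w5 : Bool}
    (hok : okBit β w1 w0 = true) :
    nonposCheck N a D (polyLhs al ep kt h psi β s w0 w1 w2 w3 w4 w5) = true := by
  simp only [mainCheck, allB_iff, Bool.or_eq_true, Bool.not_eq_true'] at hc
  rcases hc β w1 w0 with h1 | h1
  · rw [hok] at h1; exact absurd h1 (by decide)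
  · exact h1 s w2 w3 w4 w5

lemma signCheck_spec {N a : Int} {D : ℕ}
    {psi : Bool → Bool → Bool → Bool → Bool → Bool → Bool → List Int}
    (hc : signCheck N a D psi = true) {β w0 w1 w2 w3 w4 : Bool}
    (hok : okBit β w1 w0 = true) :
    nonposCheck N a D (padd (psi β true w0 w1 w2 w3 w4) (pneg (psi β false w0 w1 w2 w3 w4)))
      = true := by
  simp only [signCheck, allB_iff, Bool.or_eq_true, Bool.not_eq_true'] at hc
  rcases hc β w1 w0 with h1 | h1
  · rw [hok] at h1; exact absurd h1 (by decide)
  · exact h1 w2 w3 w4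

/-- The certificate for `2/3 ≤ α < 1`. -/
noncomputable def hiCert {α : ℝ} (h0 : 2 / 3 ≤ α) (h1 : α < 1) : RealCert α where
  h := fun s a b c d => ev (1 - α) (hiHf s a b c d)
  psi := fun β s a b c d e => ev (1 - α) (hiPsif β s a b c d e)
  c := 9 * (1 - α)
  c_pos := by linarith
  main := by
    intro β s w0 w1 w2 w3 w4 w5 hok
    have h := ev_nonpos (mainCheck_spec hi_main (s := s) (w2 := w2) (w3 := w3) (w4 := w4)
      (w5 := w5) hok) (x := 1 - α) (by norm_num) (by linarith) (by push_cast; linarith)
    rw [ev_genLhs] at h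
    have e1 : ev (1 - α) [1, -1] = α := by simp [ev]
    have e2 : ev (1 - α) [0, 1] = 1 - α := by simp [ev]
    have e3 : ev (1 - α) [0, 9] = 9 * (1 - α) := by simp [ev]; ring
    rw [e1, e2, e3] at h
    exact h
  sign := by
    intro β w0 w1 w2 w3 w4 hok
    have h := ev_nonpos (signCheck_spec hi_sign (w2 := w2) (w3 := w3) (w4 := w4) hok)
      (x := 1 - α) (by norm_num) (by linarith) (by push_cast; linarith)
    rw [ev_padd, ev_pneg] at h
    linarith

/-- The certificate for `0 < α ≤ 2/3`. -/
noncomputable def loCert {α : ℝ} (h0 : 0 < α) (h1 : α ≤ 2 / 3) : RealCert α where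
  h := fun s a b c d => ev α (loHf s a b c d)
  psi := fun β s a b c d e => ev α (loPsif β s a b c d e)
  c := 388 * α ^ 2
  c_pos := by positivity
  main := by
    intro β s w0 w1 w2 w3 w4 w5 hok
    have h := ev_nonpos (mainCheck_spec lo_main (s := s) (w2 := w2) (w3 := w3) (w4 := w4)
      (w5 := w5) hok) (x := α) (by norm_num) (by linarith) (by push_cast; linarith)
    rw [ev_genLhs] at h
    have e1 : ev α [0, 1] = α := by simp [ev]
    have e2 : ev α [1, -1] = 1 - α := by simp [ev]; ring
    have e3 : ev α [0, 0, 388] = 388 * α ^ 2 := by simp [ev]; ring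
    rw [e1, e2, e3] at h
    exact h
  sign := by
    intro β w0 w1 w2 w3 w4 _
    exact le_of_eq rfl

theorem exists_cert {α : ℝ} (h0 : 0 < α) (h1 : α < 1) : Nonempty (RealCert α) := by
  rcases le_total (2 / 3) α with h | h
  · exact ⟨hiCert h h1⟩
  · exact ⟨loCert h0 h⟩

end Pool.Agent.H.MP_c6a9e6_pr
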