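import Mathlib

/-!
# The `α`-asynchronous elementary rule 210 on a ring

The model of the problem file: configurations on `ZMod n`, the local map of rule 210, one
`α`-asynchronous step, the law of the update indicators (independent over all times and cells),
the time `T(x)` at which a fixed point is first reached, and the relaxation time `R_α(n)`.
-/

namespace Pool.Agent.H.MP_c6a9e6_pr

open MeasureTheory ProbabilityTheory
open scoped ENNReal unitInterval

/-- The local map of elementary rule 210, applied to `(x (i-1), x i, x (i+1))`. -/
def rule210 : Bool → Bool → Bool → Bool
  | true, true, true => true
  | true, true, false => true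
  | true, false, true => false
  | true, false, false => true
  | false, true, true => false
  | false, true, false => false
  | false, false, true => true
  | false, false, false => false

/-- Configurations on the ring with `n` cells (periodic boundary). -/
abbrev Config (n : ℕ) : Type := ZMod n → Bool

/-- One step: the cells `i` with `u i = true` are updated by rule 210 (all updates use the old
configuration `x`), the other cells keep their value. -/
def step {n : ℕ} (u x : Config n) : Config n :=
  fun i => if u i then rule210 (x (i - 1)) (x i) (x (i + 1)) else x i

/-- A fixed point is a configuration left unchanged by every update. -/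
def IsFixed {n : ℕ} (x : Config n) : Prop := ∀ u : Config n, step u x = x

/-- The trajectory started at `x`; at time `t`, cell `i` is updated iff `ω (t, i) = true`. -/
def traj {n : ℕ} (x : Config n) (ω : ℕ × ZMod n → Bool) : ℕ → Config n
  | 0 => x
  | t + 1 => step (fun i => ω (t, i)) (traj x ω t)

/-- `T(x)`: the first time at which the trajectory is at a fixed point (`∞` if there is none). -/
noncomputable def absorptionTime {n : ℕ} (x : Config n) (ω : ℕ × ZMod n → Bool) : ℝ≥0∞ :=
  ⨅ (t : ℕ) (_ : IsFixed (traj x ω t)), (t : ℝ≥0∞)

/-- The law of the update indicators: independent over all times and all cells, each equal to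
`true` with probability `α` and to `false` with probability `1 - α`. -/
noncomputable def updateLaw (α : I) (n : ℕ) : Measure (ℕ × ZMod n → Bool) :=
  Measure.infinitePi fun _ => bernoulliMeasure true false α

/-- The relaxation time `R_α(n) = max_x E[T(x)]`. -/
noncomputable def relaxationTime (α : I) (n : ℕ) : ℝ≥0∞ :=
  ⨆ x : Config n, ∫⁻ ω, absorptionTime x ω ∂(updateLaw α n)

end Pool.Agent.H.MP_c6a9e6_pr
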