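import Mathlib
import Pool.Agent.H.MP_c6a9e6_pr.Defs
import Pool.Agent.H.MP_c6a9e6_pr.Cert

/-!
# The drift inequality
-/

namespace Pool.Agent.H.MP_c6a9e6_pr

open Finset

variable {n : ℕ} [NeZero n]

/-! ### Expectation over one step -/

/-- The weight of an update vector. -/
noncomputable def wt (α : ℝ) (u : Config n) : ℝ := ∏ i, if u i then α else 1 - α

/-- The expectation of `F` over one update vector. -/
noncomputable def Ex (α : ℝ) (F : Config n → ℝ) : ℝ := ∑ u : Config n, wt α u * F u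

lemma Ex_add (α : ℝ) (F G : Config n → ℝ) : Ex α (fun u => F u + G u) = Ex α F + Ex α G := by
  simp [Ex, mul_add, Finset.sum_add_distrib]

lemma Ex_sub (α : ℝ) (F G : Config n → ℝ) : Ex α (fun u => F u - G u) = Ex α F - Ex α G := by
  simp [Ex, mul_sub, Finset.sum_sub_distrib]

lemma Ex_mul_left (α c : ℝ) (F : Config n → ℝ) : Ex α (fun u => c * F u) = c * Ex α F := by
  simp only [Ex, Finset.mul_sum]
  refine Finset.sum_congr rfl fun u _ => by ring

lemma Ex_sum (α : ℝ) {ι : Type*} (s : Finset ι) (F : ι → Config n → ℝ) :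
    Ex α (fun u => ∑ i ∈ s, F i u) = ∑ i ∈ s, Ex α (F i) := by
  simp only [Ex, Finset.mul_sum]
  exact Finset.sum_comm

lemma wt_nonneg {α : ℝ} (h0 : 0 ≤ α) (h1 : α ≤ 1) (u : Config n) : 0 ≤ wt α u :=
  Finset.prod_nonneg fun i _ => by split_ifs <;> linarith

lemma Ex_mono {α : ℝ} (h0 : 0 ≤ α) (h1 : α ≤ 1) {F G : Config n → ℝ} (h : ∀ u, F u ≤ G u) :
    Ex α F ≤ Ex α G :=
  Finset.sum_le_sum fun u _ => mul_le_mul_of_nonneg_left (h u) (wt_nonneg h0 h1 u)

lemma Ex_prod (α : ℝ) (f : ZMod n → Bool → ℝ) :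
    Ex α (fun u => ∏ i, f i (u i)) = ∏ i, (α * f i true + (1 - α) * f i false) := by
  have h : ∀ u : Config n, wt α u * ∏ i, f i (u i)
      = ∏ i, ((if u i then α else 1 - α) * f i (u i)) := by
    intro u; rw [wt, Finset.prod_mul_distrib]
  simp only [Ex, h]
  have := (Finset.prod_univ_sum (fun _ : ZMod n => (Finset.univ : Finset Bool))
    (fun i b => (if b then α else 1 - α) * f i b)).symm
  rw [Fintype.piFinset_univ] at this
  rw [this]
  refine Finset.prod_congr rfl fun i _ => ?_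
  simp

lemma Ex_const (α c : ℝ) : Ex α (fun _ : Config n => c) = c := by
  have h := Ex_prod (n := n) α (fun _ _ => 1)
  simp only [Finset.prod_const_one, mul_one] at h
  have h2 : Ex α (fun _ : Config n => c) = c * Ex α (fun _ : Config n => (1 : ℝ)) := by
    rw [← Ex_mul_left]; simp
  rw [h2, h]; simp

/-- The expectation of `g` at the new value of cell `i`. -/
noncomputable def sv (α : ℝ) (x : Config n) (g : Bool → ℝ) (i : ZMod n) : ℝ :=
  α * g (rule210 (x (i - 1)) (x i) (x (i + 1))) + (1 - α) * g (x i)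

omit [NeZero n] in
lemma natCast_inj_of_lt {s t : ℕ} (hs : s < n) (ht : t < n) (h : (s : ZMod n) = t) : s = t := by
  rw [ZMod.natCast_eq_natCast_iff] at h
  have := h
  unfold Nat.ModEq at this
  rwa [Nat.mod_eq_of_lt hs, Nat.mod_eq_of_lt ht] at this

lemma Ex_window (α : ℝ) (x : Config n) {m : ℕ} (hm : m ≤ n) (a : ZMod n) (g : ℕ → Bool → ℝ) :
    Ex α (fun u => ∏ t ∈ range m, g t (step u x (a + t)))
      = ∏ t ∈ range m, sv α x (g t) (a + t) := by
  classical
  set F : ZMod n → Bool → ℝ := fun i b => ∏ t ∈ (range m).filter (fun t : ℕ => a + (t : ZMod n) = i),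
    g t (if b then rule210 (x (i - 1)) (x i) (x (i + 1)) else x i) with hF
  have h1 : ∀ u : Config n, ∏ t ∈ range m, g t (step u x (a + t)) = ∏ i, F i (u i) := by
    intro u
    rw [← Finset.prod_fiberwise (range m) (fun t : ℕ => a + (t : ZMod n))
      (fun t => g t (step u x (a + t)))]
    refine Finset.prod_congr rfl fun i _ => ?_
    refine Finset.prod_congr rfl fun t ht => ?_
    rw [Finset.mem_filter] at ht
    rw [ht.2, step]
  simp only [h1]
  rw [Ex_prod]
  rw [← Finset.prod_fiberwise (range m) (fun t : ℕ => a + (t : ZMod n))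
      (fun t => sv α x (g t) (a + t))]
  refine Finset.prod_congr rfl fun i _ => ?_
  rcases Finset.eq_empty_or_nonempty ((range m).filter (fun t : ℕ => a + (t : ZMod n) = i))
    with he | ⟨t0, ht0⟩
  · simp [hF, he]
  · have hsing : (range m).filter (fun t : ℕ => a + (t : ZMod n) = i) = {t0} := by
      ext t
      rw [Finset.mem_singleton]
      constructor
      · intro ht
        rw [Finset.mem_filter, Finset.mem_range] at ht ht0
        have h := ht.2.trans ht0.2.symm
        have h' : (t : ZMod n) = t0 := add_left_cancel h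
        exact natCast_inj_of_lt (by omega) (by omega) h'
      · rintro rfl; exact ht0
    rw [Finset.mem_filter] at ht0
    simp only [hF, hsing, Finset.prod_singleton]
    rw [← ht0.2]
    simp [sv]

/-! ### The parse bits -/

/-- `0` is sent to `1` and `1` to `0`. -/
def zi (b : Bool) : ℝ := if b then 0 else 1

/-- value of a bit -/
def bv (b : Bool) : ℝ := if b then 1 else 0

/-- The alternating sum `z (i+1) - z (i+1) z (i+2) + ⋯` with `L` terms. -/
noncomputable def bet (z : ZMod n → ℝ) : ℕ → ZMod n → ℝ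
  | 0, _ => 0
  | L + 1, i => z (i + 1) * (1 - bet z L (i + 1))

/-- The parse bit of a configuration. -/
def bb (x : Config n) : ℕ → ZMod n → Bool
  | 0, _ => false
  | L + 1, i => !(x (i + 1)) && !(bb x L (i + 1))

omit [NeZero n] in
lemma bet_eq_bv (x : Config n) : ∀ (L : ℕ) (i : ZMod n),
    bet (fun i => zi (x i)) L i = bv (bb x L i)
  | 0, i => by simp [bet, bb, bv]
  | L + 1, i => by
    rw [bet, bet_eq_bv x L (i + 1), bb]
    cases x (i + 1) <;> cases bb x L (i + 1) <;> simp [zi, bv]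

lemma bv_inj {a b : Bool} (h : bv a = bv b) : a = b := by
  cases a <;> cases b <;> simp_all [bv]

omit [NeZero n] in
lemma bet_mem {z : ZMod n → ℝ} (h : ∀ i, 0 ≤ z i ∧ z i ≤ 1) : ∀ (L : ℕ) (i : ZMod n),
    0 ≤ bet z L i ∧ bet z L i ≤ 1
  | 0, i => by simp [bet]
  | L + 1, i => by
    obtain ⟨h1, h2⟩ := bet_mem h L (i + 1)
    obtain ⟨h3, h4⟩ := h (i + 1)
    rw [bet]
    constructor
    · exact mul_nonneg h3 (by linarith)
    · calc z (i + 1) * (1 - bet z L (i + 1)) ≤ 1 * 1 :=
            mul_le_mul h4 (by linarith) (by linarith) (by norm_num)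
        _ = 1 := by norm_num

omit [NeZero n] in
lemma bet_succ_sub (z : ZMod n → ℝ) : ∀ (L : ℕ) (i : ZMod n),
    bet z (L + 1) i - bet z L i = (-1) ^ L * ∏ t ∈ range (L + 1), z (i + 1 + t)
  | 0, i => by simp [bet]
  | L + 1, i => by
    have h := bet_succ_sub z L (i + 1)
    have h1 : bet z (L + 1 + 1) i - bet z (L + 1) i
        = - z (i + 1) * (bet z (L + 1) (i + 1) - bet z L (i + 1)) := by
      have e1 : bet z (L + 1 + 1) i = z (i + 1) * (1 - bet z (L + 1) (i + 1)) := rfl
      have e2 : bet z (L + 1) i = z (i + 1) * (1 - bet z L (i + 1)) := rfl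
      rw [e1, e2]; ring
    rw [h1, h, Finset.prod_range_succ' _ (L + 1)]
    have h2 : ∀ t : ℕ, z (i + 1 + ((t + 1 : ℕ) : ZMod n)) = z (i + 1 + 1 + t) := by
      intro t; congr 1; push_cast; ring
    simp only [h2]
    simp only [Nat.cast_zero, add_zero]
    ring

omit [NeZero n] in
/-- The recursion for the parse bits, with `L` odd. -/
lemma bet_pred (z : ZMod n → ℝ) (k : ℕ) (i : ZMod n) :
    bet z (2 * k + 1) (i - 1) = z i * (1 - bet z (2 * k + 1) i)
      + ∏ t ∈ range (2 * k + 2), z (i + t) := by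
  have h := bet_succ_sub z (2 * k) i
  have h1 : bet z (2 * k + 1) (i - 1) = z i * (1 - bet z (2 * k) i) := by
    rw [bet]; simp
  have h2 : (∏ t ∈ range (2 * k + 2), z (i + t))
      = (∏ t ∈ range (2 * k + 1), z (i + 1 + t)) * z i := by
    rw [Finset.prod_range_succ' _ (2 * k + 1)]
    have h2 : ∀ t : ℕ, z (i + ((t + 1 : ℕ) : ZMod n)) = z (i + 1 + t) := by
      intro t; congr 1; push_cast; ring
    simp only [h2]
    simp
  have h3 : ((-1 : ℝ)) ^ (2 * k) = 1 := by rw [pow_mul]; norm_num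
  rw [h3, one_mul] at h
  rw [h1, h2, ← h]
  ring

/-- Products over a window times a parse bit. -/
lemma Ex_window_bet (α : ℝ) (x : Config n) (a : ZMod n) : ∀ (L m : ℕ) (g : ℕ → Bool → ℝ),
    m + L ≤ n →
    Ex α (fun u => (∏ t ∈ range m, g t (step u x (a + t)))
        * bet (fun i => zi (step u x i)) L (a + m - 1))
      = (∏ t ∈ range m, sv α x (g t) (a + t)) * bet (sv α x zi) L (a + m - 1)
  | 0, m, g, _ => by simp only [bet, mul_zero]; exact Ex_const α 0
  | L + 1, m, g, h => by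
    classical
    set g' : ℕ → Bool → ℝ := fun t => if t < m then g t else zi with hg'
    have hprod : ∀ F : ℕ → (Bool → ℝ) → ℝ,
        ∏ t ∈ range (m + 1), F t (g' t) = (∏ t ∈ range m, F t (g t)) * F m zi := by
      intro F
      rw [Finset.prod_range_succ]
      congr 1
      · refine Finset.prod_congr rfl fun t ht => ?_
        rw [Finset.mem_range] at ht
        simp [hg', ht]
      · simp [hg']
    have hcast : a + ((m + 1 : ℕ) : ZMod n) - 1 = a + m := by push_cast; ring
    have hcast2 : a + (m : ZMod n) - 1 + 1 = a + m := by ring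
    have ih := Ex_window_bet α x a L (m + 1) g' (by omega)
    rw [hcast] at ih
    have h1 := Ex_window α x (m := m + 1) (by omega) a g'
    have h2 : ∀ u : Config n, (∏ t ∈ range m, g t (step u x (a + t)))
        * bet (fun i => zi (step u x i)) (L + 1) (a + m - 1)
        = (∏ t ∈ range (m + 1), g' t (step u x (a + t)))
          - (∏ t ∈ range (m + 1), g' t (step u x (a + t)))
            * bet (fun i => zi (step u x i)) L (a + m) := by
      intro u
      rw [hprod (fun t f => f (step u x (a + t))), bet, hcast2]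
      ring
    simp only [h2]
    rw [Ex_sub, h1, ih, hprod (fun t f => sv α x f (a + t)), bet, hcast2]
    ring

/-! ### Expectation of the local terms -/

/-- indicator of the value `v` -/
def dl (v b : Bool) : ℝ := if b = v then 1 else 0

omit [NeZero n] in
lemma sv_zi (α : ℝ) (x : Config n) (i : ZMod n) :
    sv α x zi i = qG 0 1 α (1 - α) (x (i - 1)) (x i) (x (i + 1)) := by
  rw [sv]
  cases x (i - 1) <;> cases x i <;> cases x (i + 1) <;> simp [zi, qG, rule210]

omit [NeZero n] in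
lemma sv_dl (α : ℝ) (x : Config n) (v : Bool) (i : ZMod n) :
    sv α x (dl v) i
      = pG 0 1 α (1 - α) (· + ·) (- ·) v (x (i - 1)) (x i) (x (i + 1)) := by
  rw [sv]
  cases v <;> cases x (i - 1) <;> cases x i <;> cases x (i + 1) <;>
    simp [dl, pG, qG, rule210] <;> ring

lemma realLhs_eq (α kt : ℝ) (h : Bool → Bool → Bool → Bool → Bool → ℝ)
    (psi : Bool → Bool → Bool → Bool → Bool → Bool → Bool → ℝ)
    (β s w0 w1 w2 w3 w4 w5 : Bool) :
    realLhs α kt h psi β s w0 w1 w2 w3 w4 w5 =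
      (exG 0 1 α (1 - α) (· + ·) (· * ·) (- ·) w2 w1 w0 fun v0 =>
        exG 0 1 α (1 - α) (· + ·) (· * ·) (- ·) w3 w2 w1 fun v1 =>
        exG 0 1 α (1 - α) (· + ·) (· * ·) (- ·) w4 w3 w2 fun v2 =>
        exG 0 1 α (1 - α) (· + ·) (· * ·) (- ·) w5 w4 w3 fun v3 => h s v0 v1 v2 v3)
      - h β w2 w3 w4 w5
      + (if s then psi (nextBit β w2) false w1 w2 w3 w4 w5 else
          qG 0 1 α (1 - α) w2 w1 w0 * psi (nextBit β w2) true w1 w2 w3 w4 w5
          + (1 - qG 0 1 α (1 - α) w2 w1 w0) * psi (nextBit β w2) false w1 w2 w3 w4 w5)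
      - psi β s w0 w1 w2 w3 w4 + kt * (if w2 = false ∧ w1 = true then 1 else 0) := by
  have hb : bdG (0 : ℝ) kt w2 w1 = kt * (if w2 = false ∧ w1 = true then 1 else 0) := by
    cases w2 <;> cases w1 <;> simp [bdG]
  simp only [realLhs, genLhs]
  rw [hb]
  cases s
  · have hex : exG 0 1 α (1 - α) (· + ·) (· * ·) (- ·) w2 w1 w0
        (fun v0 => psi (nextBit β w2) (!v0) w1 w2 w3 w4 w5)
        = qG 0 1 α (1 - α) w2 w1 w0 * psi (nextBit β w2) true w1 w2 w3 w4 w5
          + (1 - qG 0 1 α (1 - α) w2 w1 w0) * psi (nextBit β w2) false w1 w2 w3 w4 w5 := by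
      simp only [exG, pG, Bool.not_false, Bool.not_true]
      ring
    simp only [hex, Bool.false_eq_true, if_false]
    ring
  · simp only [if_true]
    ring

/-- The four factors. -/
def gg (v : Bool × Bool × Bool × Bool) : ℕ → Bool → ℝ
  | 0 => dl v.2.2.2
  | 1 => dl v.2.2.1
  | 2 => dl v.2.1
  | _ => dl v.1

/-- The nested expectation. -/
noncomputable abbrev nest (α : ℝ) (f : Bool → Bool → Bool → Bool → ℝ)
    (w0 w1 w2 w3 w4 w5 : Bool) : ℝ :=
  exG 0 1 α (1 - α) (· + ·) (· * ·) (- ·) w2 w1 w0 fun v0 =>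
  exG 0 1 α (1 - α) (· + ·) (· * ·) (- ·) w3 w2 w1 fun v1 =>
  exG 0 1 α (1 - α) (· + ·) (· * ·) (- ·) w4 w3 w2 fun v2 =>
  exG 0 1 α (1 - α) (· + ·) (· * ·) (- ·) w5 w4 w3 fun v3 => f v0 v1 v2 v3

omit [NeZero n] in
lemma expand4 (f : Bool → Bool → Bool → Bool → ℝ) (y : Config n) (j : ZMod n) :
    f (y (j + 1)) (y j) (y (j - 1)) (y (j - 2)) =
      ∑ v : Bool × Bool × Bool × Bool, f v.1 v.2.1 v.2.2.1 v.2.2.2 *
        ∏ t ∈ range 4, gg v t (y (j - 2 + t)) := by
  have e1 : j - 2 + ((1 : ℕ) : ZMod n) = j - 1 := by push_cast; ring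
  have e2 : j - 2 + ((2 : ℕ) : ZMod n) = j := by push_cast; ring
  have e3 : j - 2 + ((3 : ℕ) : ZMod n) = j + 1 := by push_cast; ring
  simp only [Finset.prod_range_succ, Finset.prod_range_zero, gg, Fintype.sum_prod_type,
    Fintype.sum_bool, e1, e2, e3, Nat.cast_zero, add_zero]
  cases y (j + 1) <;> cases y j <;> cases y (j - 1) <;> cases y (j - 2) <;> simp [dl]

omit [NeZero n] in
lemma sum_nest (α : ℝ) (f : Bool → Bool → Bool → Bool → ℝ) (x : Config n) (j : ZMod n) :
    ∑ v : Bool × Bool × Bool × Bool, f v.1 v.2.1 v.2.2.1 v.2.2.2 *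
        ∏ t ∈ range 4, sv α x (gg v t) (j - 2 + t)
      = nest α f (x (j + 2)) (x (j + 1)) (x j) (x (j - 1)) (x (j - 2)) (x (j - 3)) := by
  have e1 : j - 2 + ((1 : ℕ) : ZMod n) = j - 1 := by push_cast; ring
  have e2 : j - 2 + ((2 : ℕ) : ZMod n) = j := by push_cast; ring
  have e3 : j - 2 + ((3 : ℕ) : ZMod n) = j + 1 := by push_cast; ring
  have f1 : j - 2 - 1 = j - 3 := by ring
  have f2 : j - 2 + 1 = j - 1 := by ring
  have f3 : j - 1 - 1 = j - 2 := by ring
  have f4 : j - 1 + 1 = j := by ring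
  have f5 : j + 1 - 1 = j := by ring
  have f6 : j + 1 + 1 = j + 2 := by ring
  simp only [Finset.prod_range_succ, Finset.prod_range_zero, gg, Fintype.sum_prod_type,
    Fintype.sum_bool, e1, e2, e3, Nat.cast_zero, add_zero, sv_dl, f1, f2, f3, f4, f5, f6, nest, exG]
  ring

lemma Ex_four (α : ℝ) (f : Bool → Bool → Bool → Bool → ℝ) (x : Config n) (j : ZMod n)
    (hn : 4 ≤ n) :
    Ex α (fun u => f (step u x (j + 1)) (step u x j) (step u x (j - 1)) (step u x (j - 2)))
      = nest α f (x (j + 2)) (x (j + 1)) (x j) (x (j - 1)) (x (j - 2)) (x (j - 3)) := by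
  have h : ∀ u : Config n, f (step u x (j + 1)) (step u x j) (step u x (j - 1)) (step u x (j - 2))
      = ∑ v : Bool × Bool × Bool × Bool, f v.1 v.2.1 v.2.2.1 v.2.2.2 *
        ∏ t ∈ range 4, gg v t (step u x (j - 2 + t)) := fun u => expand4 f (step u x) j
  simp only [h]
  rw [Ex_sum]
  simp only [Ex_mul_left, Ex_window α x hn (j - 2)]
  exact sum_nest α f x j

lemma Ex_four_bet (α : ℝ) (f : Bool → Bool → Bool → Bool → ℝ) (x : Config n) (j : ZMod n)
    {L : ℕ} (hn : 4 + L ≤ n) :
    Ex α (fun u => f (step u x (j + 1)) (step u x j) (step u x (j - 1)) (step u x (j - 2))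
        * bet (fun i => zi (step u x i)) L (j + 1))
      = nest α f (x (j + 2)) (x (j + 1)) (x j) (x (j - 1)) (x (j - 2)) (x (j - 3))
        * bet (sv α x zi) L (j + 1) := by
  have e4 : j - 2 + ((4 : ℕ) : ZMod n) - 1 = j + 1 := by push_cast; ring
  have h : ∀ u : Config n, f (step u x (j + 1)) (step u x j) (step u x (j - 1)) (step u x (j - 2))
        * bet (fun i => zi (step u x i)) L (j + 1)
      = ∑ v : Bool × Bool × Bool × Bool, f v.1 v.2.1 v.2.2.1 v.2.2.2 *
        ((∏ t ∈ range 4, gg v t (step u x (j - 2 + t)))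
          * bet (fun i => zi (step u x i)) L (j + 1)) := by
    intro u
    rw [expand4 f (step u x) j, Finset.sum_mul]
    refine Finset.sum_congr rfl fun v _ => by ring
  simp only [h]
  rw [Ex_sum]
  have hw : ∀ g : ℕ → Bool → ℝ, Ex α (fun u => (∏ t ∈ range 4, g t (step u x (j - 2 + t)))
          * bet (fun i => zi (step u x i)) L (j + 1))
        = (∏ t ∈ range 4, sv α x (g t) (j - 2 + t)) * bet (sv α x zi) L (j + 1) := by
    intro g
    have := Ex_window_bet α x (j - 2) L 4 g hn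
    rwa [e4] at this
  simp only [Ex_mul_left, hw]
  rw [← sum_nest α f x j, Finset.sum_mul]
  refine Finset.sum_congr rfl fun v _ => by ring

/-! ### The functional -/

variable {α : ℝ}

/-- The local term of the functional. -/
noncomputable def vloc (C : RealCert α) (v0 v1 v2 v3 : Bool) (b : ℝ) : ℝ :=
  (1 - b) * C.h false v0 v1 v2 v3 + b * C.h true v0 v1 v2 v3

/-- The functional. -/
noncomputable def VV (C : RealCert α) (L : ℕ) (y : Config n) : ℝ :=
  ∑ j, vloc C (y j) (y (j - 1)) (y (j - 2)) (y (j - 3)) (bet (fun i => zi (y i)) L j)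

lemma VV_shift (C : RealCert α) (L : ℕ) (y : Config n) :
    VV C L y = ∑ j, vloc C (y (j + 1)) (y j) (y (j - 1)) (y (j - 2))
      (bet (fun i => zi (y i)) L (j + 1)) := by
  rw [VV, ← Equiv.sum_comp (Equiv.addRight (1 : ZMod n))]
  refine Finset.sum_congr rfl fun j _ => ?_
  simp only [Equiv.coe_addRight]
  have e1 : j + 1 - 1 = j := by ring
  have e2 : j + 1 - 2 = j - 1 := by ring
  have e3 : j + 1 - 3 = j - 2 := by ring
  rw [e1, e2, e3]

lemma Ex_VV (C : RealCert α) {L : ℕ} (hn : 4 + L ≤ n) (x : Config n) :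
    Ex α (fun u => VV C L (step u x)) = ∑ j,
      ((1 - bet (sv α x zi) L (j + 1)) *
        nest α (C.h false) (x (j + 2)) (x (j + 1)) (x j) (x (j - 1)) (x (j - 2)) (x (j - 3))
      + bet (sv α x zi) L (j + 1) *
        nest α (C.h true) (x (j + 2)) (x (j + 1)) (x j) (x (j - 1)) (x (j - 2)) (x (j - 3))) := by
  simp only [VV_shift]
  rw [Ex_sum]
  refine Finset.sum_congr rfl fun j _ => ?_
  have h : ∀ u : Config n, vloc C (step u x (j + 1)) (step u x j) (step u x (j - 1))
      (step u x (j - 2)) (bet (fun i => zi (step u x i)) L (j + 1))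
      = (C.h false (step u x (j + 1)) (step u x j) (step u x (j - 1)) (step u x (j - 2))
        - C.h false (step u x (j + 1)) (step u x j) (step u x (j - 1)) (step u x (j - 2))
          * bet (fun i => zi (step u x i)) L (j + 1))
        + C.h true (step u x (j + 1)) (step u x j) (step u x (j - 1)) (step u x (j - 2))
          * bet (fun i => zi (step u x i)) L (j + 1) := by
    intro u; rw [vloc]; ring
  simp only [h]
  rw [Ex_add, Ex_sub, Ex_four α (C.h false) x j (by omega), Ex_four_bet α (C.h false) x j hn,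
    Ex_four_bet α (C.h true) x j hn]
  ring

/-- The potential. -/
noncomputable def pot (C : RealCert α) (L : ℕ) (x : Config n) (j : ZMod n) : ℝ :=
  (1 - bet (sv α x zi) L (j + 1)) *
      C.psi (bb x L j) false (x (j + 2)) (x (j + 1)) (x j) (x (j - 1)) (x (j - 2))
    + bet (sv α x zi) L (j + 1) *
      C.psi (bb x L j) true (x (j + 2)) (x (j + 1)) (x j) (x (j - 1)) (x (j - 2))

/-- A border: `x j = 0`, `x (j + 1) = 1`. -/
def border (x : Config n) (j : ZMod n) : ℝ := if x j = false ∧ x (j + 1) = true then 1 else 0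

omit [NeZero n] in
lemma okBit_bb (x : Config n) (L : ℕ) (j : ZMod n) :
    okBit (bb x (L + 1) j) (x (j + 1)) (x (j + 2)) = true := by
  have e : j + 1 + 1 = j + 2 := by ring
  cases L with
  | zero =>
    rw [bb, bb]
    cases x (j + 1) <;> cases x (j + 2) <;> simp [okBit]
  | succ L =>
    rw [bb, bb, e]
    cases x (j + 1) <;> cases x (j + 2) <;> simp [okBit]

omit [NeZero n] in
lemma sv_zi_mem (h0 : 0 ≤ α) (h1 : α ≤ 1) (x : Config n) (i : ZMod n) :
    0 ≤ sv α x zi i ∧ sv α x zi i ≤ 1 := by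
  rw [sv_zi]
  cases x (i - 1) <;> cases x i <;> cases x (i + 1) <;> simp [qG, h0, h1]

omit [NeZero n] in
/-- The local inequality. -/
lemma local_ineq (C : RealCert α) (h0 : 0 ≤ α) (h1 : α ≤ 1) (k : ℕ) (x : Config n)
    (hx : ∀ i : ZMod n, ∏ t ∈ range (2 * k + 2), zi (x (i + t)) = 0) (j : ZMod n) :
    ((1 - bet (sv α x zi) (2 * k + 1) (j + 1)) *
        nest α (C.h false) (x (j + 2)) (x (j + 1)) (x j) (x (j - 1)) (x (j - 2)) (x (j - 3))
      + bet (sv α x zi) (2 * k + 1) (j + 1) *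
        nest α (C.h true) (x (j + 2)) (x (j + 1)) (x j) (x (j - 1)) (x (j - 2)) (x (j - 3)))
      - vloc C (x j) (x (j - 1)) (x (j - 2)) (x (j - 3))
          (bet (fun i => zi (x i)) (2 * k + 1) j)
      + (pot C (2 * k + 1) x (j - 1) - pot C (2 * k + 1) x j) + C.c * border x j ≤ 0 := by
  set L := 2 * k + 1 with hL
  set b := bet (sv α x zi) L (j + 1) with hb
  set β := bb x L j with hβ
  obtain ⟨hb0, hb1⟩ := bet_mem (sv_zi_mem h0 h1 x) L (j + 1)
  rw [← hb] at hb0 hb1
  have ok : okBit β (x (j + 1)) (x (j + 2)) = true := okBit_bb x (2 * k) j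
  -- next parse bit
  have hnext : bb x L (j - 1) = nextBit β (x j) := by
    apply bv_inj
    rw [← bet_eq_bv, bet_pred, hx j, add_zero, bet_eq_bv, ← hL, ← hβ]
    cases x j <;> cases β <;> simp [zi, bv, nextBit]
  have ok' : okBit (nextBit β (x j)) (x j) (x (j + 1)) = true := by
    rw [← hnext]
    have := okBit_bb x (2 * k) (j - 1)
    have e1 : j - 1 + 1 = j := by ring
    have e2 : j - 1 + 2 = j + 1 := by ring
    rwa [e1, e2] at this
  -- next probability
  set b' := bet (sv α x zi) L j with hb'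
  have hb'1 : qG 0 1 α (1 - α) (x j) (x (j + 1)) (x (j + 2)) * (1 - b) ≤ b' := by
    have h := bet_pred (sv α x zi) k (j + 1)
    have e1 : j + 1 - 1 = j := by ring
    have e2 : j + 1 + 1 = j + 2 := by ring
    rw [e1, ← hL, ← hb, ← hb', sv_zi, e1, e2] at h
    rw [h]
    have : 0 ≤ ∏ t ∈ range (2 * k + 2), sv α x zi (j + 1 + t) :=
      Finset.prod_nonneg fun t _ => (sv_zi_mem h0 h1 x _).1
    linarith
  -- bound the next potential
  have hpot : pot C L x (j - 1) ≤
      (1 - qG 0 1 α (1 - α) (x j) (x (j + 1)) (x (j + 2)) * (1 - b)) *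
        C.psi (nextBit β (x j)) false (x (j + 1)) (x j) (x (j - 1)) (x (j - 2)) (x (j - 3))
      + qG 0 1 α (1 - α) (x j) (x (j + 1)) (x (j + 2)) * (1 - b) *
        C.psi (nextBit β (x j)) true (x (j + 1)) (x j) (x (j - 1)) (x (j - 2)) (x (j - 3)) := by
    have e1 : j - 1 + 1 = j := by ring
    have e2 : j - 1 + 2 = j + 1 := by ring
    have e3 : j - 1 - 1 = j - 2 := by ring
    have e4 : j - 1 - 2 = j - 3 := by ring
    rw [pot, e1, e2, e3, e4, hnext, ← hb']
    have hs := C.sign (nextBit β (x j)) (x (j + 1)) (x j) (x (j - 1)) (x (j - 2)) (x (j - 3)) ok'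
    nlinarith [mul_nonneg (sub_nonneg.2 hb'1) (sub_nonneg.2 hs)]
  have m0 := C.main β false (x (j + 2)) (x (j + 1)) (x j) (x (j - 1)) (x (j - 2)) (x (j - 3)) ok
  have m1 := C.main β true (x (j + 2)) (x (j + 1)) (x j) (x (j - 1)) (x (j - 2)) (x (j - 3)) ok
  have hv : vloc C (x j) (x (j - 1)) (x (j - 2)) (x (j - 3)) (bet (fun i => zi (x i)) L j)
      = C.h β (x j) (x (j - 1)) (x (j - 2)) (x (j - 3)) := by
    rw [bet_eq_bv, ← hβ, vloc]
    cases β <;> simp [bv]
  rw [hv]
  rw [realLhs_eq] at m0 m1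
  simp only [Bool.false_eq_true, if_false] at m0
  simp only [if_true] at m1
  have hbd : (if x j = false ∧ x (j + 1) = true then (1 : ℝ) else 0) = border x j := rfl
  rw [hbd] at m0 m1
  have key := add_nonpos (mul_nonpos_of_nonneg_of_nonpos (sub_nonneg.2 hb1) m0)
    (mul_nonpos_of_nonneg_of_nonpos hb0 m1)
  have hpj : pot C L x j = (1 - b) * C.psi β false (x (j + 2)) (x (j + 1)) (x j) (x (j - 1))
      (x (j - 2)) + b * C.psi β true (x (j + 2)) (x (j + 1)) (x j) (x (j - 1)) (x (j - 2)) := rfl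
  rw [hpj]
  linarith

/-- The drift inequality: no run of `2 k + 2` zeros. -/
theorem drift (C : RealCert α) (h0 : 0 ≤ α) (h1 : α ≤ 1) (k : ℕ) (hn : 2 * k + 5 ≤ n)
    (x : Config n) (hx : ∀ i : ZMod n, ∏ t ∈ range (2 * k + 2), zi (x (i + t)) = 0) :
    Ex α (fun u => VV C (2 * k + 1) (step u x)) ≤
      VV C (2 * k + 1) x - C.c * ∑ j, border x j := by
  rw [Ex_VV C (by omega) x]
  have h := Finset.sum_nonpos fun j (_ : j ∈ (Finset.univ : Finset (ZMod n))) =>
    local_ineq C h0 h1 k x hx j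
  have htel : ∑ j, (pot C (2 * k + 1) x (j - 1) - pot C (2 * k + 1) x j) = 0 := by
    rw [Finset.sum_sub_distrib, sub_eq_zero]
    exact Equiv.sum_comp (Equiv.subRight (1 : ZMod n)) (fun j => pot C (2 * k + 1) x j)
  rw [Finset.sum_add_distrib, Finset.sum_add_distrib, htel, ← Finset.mul_sum,
    Finset.sum_sub_distrib] at h
  have hV : VV C (2 * k + 1) x = ∑ j, vloc C (x j) (x (j - 1)) (x (j - 2)) (x (j - 3))
    (bet (fun i => zi (x i)) (2 * k + 1) j) := rfl
  rw [hV]
  linarith

end Pool.Agent.H.MP_c6a9e6_pr
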