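import Mathlib
import Pool.Agent.H.MP_c6a9e6_pr.Defs
import Pool.Agent.H.MP_c6a9e6_pr.Cert
import Pool.Agent.H.MP_c6a9e6_pr.Drift

/-!
# A bounded function with negative drift
-/

namespace Pool.Agent.H.MP_c6a9e6_pr

open Finset

variable {n : ℕ} [NeZero n]

/-- The set of cells in state `1`. -/
def ones (x : Config n) : Finset (ZMod n) := Finset.univ.filter fun i => x i = true

lemma mem_ones {x : Config n} {i : ZMod n} : i ∈ ones x ↔ x i = true := by simp [ones]

/-- A rapidly decreasing weight. -/
noncomputable def phi (α : ℝ) : ℕ → ℝ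
  | 0 => 1
  | m + 1 => phi α m * (α * (1 - α) ^ (2 * (m + 1)) / 2)

lemma phi_pos {α : ℝ} (h0 : 0 < α) (h1 : α < 1) : ∀ m, 0 < phi α m
  | 0 => by simp [phi]
  | m + 1 => by
    have := phi_pos h0 h1 m
    have h2 : 0 < 1 - α := by linarith
    rw [phi]; positivity

lemma phi_succ_le {α : ℝ} (h0 : 0 < α) (h1 : α < 1) (m : ℕ) : phi α (m + 1) ≤ phi α m := by
  have hp := phi_pos h0 h1 m
  have h2 : (1 - α) ^ (2 * (m + 1)) ≤ 1 := pow_le_one₀ (by linarith) (by linarith)
  have h3 : 0 < (1 - α) ^ (2 * (m + 1)) := pow_pos (by linarith) _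
  rw [phi]
  have h4 : α * (1 - α) ^ (2 * (m + 1)) / 2 ≤ 1 := by nlinarith
  calc phi α m * (α * (1 - α) ^ (2 * (m + 1)) / 2) ≤ phi α m * 1 :=
        mul_le_mul_of_nonneg_left h4 hp.le
    _ = phi α m := mul_one _

lemma phi_anti {α : ℝ} (h0 : 0 < α) (h1 : α < 1) : Antitone (phi α) :=
  antitone_nat_of_succ_le (phi_succ_le h0 h1)

lemma phi_le_one {α : ℝ} (h0 : 0 < α) (h1 : α < 1) (m : ℕ) : phi α m ≤ 1 :=
  (phi_anti h0 h1 (Nat.zero_le m)).trans (le_of_eq rfl)

/-- Cells that may turn from `0` to `1`. -/
def act (x : Config n) : Finset (ZMod n) :=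
  Finset.univ.filter fun j => x j = false ∧ (x (j - 1) = true ∨ x (j + 1) = true)

lemma card_act_le (x : Config n) : (act x).card ≤ 2 * (ones x).card := by
  have hsub : act x ⊆ (ones x).image (fun i => i + 1) ∪ (ones x).image (fun i => i - 1) := by
    intro j hj
    simp only [act, Finset.mem_filter, Finset.mem_univ, true_and] at hj
    rw [Finset.mem_union, Finset.mem_image, Finset.mem_image]
    rcases hj.2 with h | h
    · left; exact ⟨j - 1, by simp [ones, h], by ring⟩
    · right; exact ⟨j + 1, by simp [ones, h], by ring⟩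
  calc (act x).card ≤ ((ones x).image (fun i => i + 1) ∪ (ones x).image (fun i => i - 1)).card :=
        Finset.card_le_card hsub
    _ ≤ ((ones x).image (fun i => i + 1)).card + ((ones x).image (fun i => i - 1)).card :=
        Finset.card_union_le _ _
    _ ≤ (ones x).card + (ones x).card := add_le_add Finset.card_image_le Finset.card_image_le
    _ = 2 * (ones x).card := by ring

/-- If `i0` is updated and no cell of `act x` is, then the number of ones decreases. -/
lemma ones_step {x u : Config n} {i0 : ZMod n} (h1 : x (i0 - 1) = false) (h2 : x i0 = true)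
    (hu : u i0 = true) (hu' : ∀ j ∈ act x, u j = false) :
    (ones (step u x)).card + 1 ≤ (ones x).card := by
  have hsub : ones (step u x) ⊆ (ones x).erase i0 := by
    intro i hi
    rw [mem_ones, step] at hi
    rw [Finset.mem_erase]
    by_cases hui : u i = true
    · rw [hui] at hi
      simp only [if_true] at hi
      have hxi : x i = true := by
        by_contra hx
        rw [Bool.not_eq_true] at hx
        have hact : i ∈ act x := by
          simp only [act, Finset.mem_filter, Finset.mem_univ, true_and]
          refine ⟨hx, ?_⟩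
          rw [hx] at hi
          revert hi
          cases x (i - 1) <;> cases x (i + 1) <;> simp [rule210]
        rw [hu' i hact] at hui
        exact absurd hui (by decide)
      refine ⟨?_, by simp [ones, hxi]⟩
      rintro rfl
      rw [h1, h2] at hi
      revert hi
      cases x (i + 1) <;> simp [rule210]
    · rw [Bool.not_eq_true] at hui
      rw [hui] at hi
      simp only [Bool.false_eq_true, if_false] at hi
      refine ⟨?_, by simp [ones, hi]⟩
      rintro rfl
      rw [hu] at hui
      exact absurd hui (by decide)
  have hc := Finset.card_le_card hsub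
  have hmem : i0 ∈ ones x := by simp [ones, h2]
  rw [Finset.card_erase_of_mem hmem] at hc
  have hpos : 0 < (ones x).card := Finset.card_pos.2 ⟨i0, hmem⟩
  omega

/-- `phi` of the number of ones grows in expectation by a factor two. -/
lemma Ex_phi {α : ℝ} (h0 : 0 < α) (h1 : α < 1) {x : Config n} {i0 : ZMod n}
    (hx1 : x (i0 - 1) = false) (hx2 : x i0 = true) :
    2 * phi α (ones x).card ≤ Ex α (fun u => phi α (ones (step u x)).card) := by
  classical
  have hmem : i0 ∈ ones x := by simp [ones, hx2]
  obtain ⟨m, hm⟩ : ∃ m, (ones x).card = m + 1 :=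
    ⟨(ones x).card - 1, by have := Finset.card_pos.2 ⟨i0, hmem⟩; omega⟩
  set f : ZMod n → Bool → ℝ := fun i b =>
    if i = i0 then (if b then 1 else 0) else if i ∈ act x then (if b then 0 else 1) else 1 with hf
  have hle : ∀ u : Config n, phi α m * ∏ i, f i (u i) ≤ phi α (ones (step u x)).card := by
    intro u
    by_cases hu : u i0 = true ∧ ∀ j ∈ act x, u j = false
    · have h := ones_step hx1 hx2 hu.1 hu.2
      have hprod : ∏ i, f i (u i) ≤ 1 := by
        refine Finset.prod_le_one (fun i _ => ?_) (fun i _ => ?_)
        · simp only [hf]; split_ifs <;> norm_num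
        · simp only [hf]; split_ifs <;> norm_num
      calc phi α m * ∏ i, f i (u i) ≤ phi α m * 1 :=
            mul_le_mul_of_nonneg_left hprod (phi_pos h0 h1 m).le
        _ = phi α m := mul_one _
        _ ≤ phi α (ones (step u x)).card := phi_anti h0 h1 (by omega)
    · have hz : ∏ i, f i (u i) = 0 := by
        rw [not_and_or] at hu
        rcases hu with hu | hu
        · refine Finset.prod_eq_zero (Finset.mem_univ i0) ?_
          rw [Bool.not_eq_true] at hu
          simp [hf, hu]
        · push Not at hu
          obtain ⟨j, hj, hj'⟩ := hu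
          have hne : j ≠ i0 := by
            rintro rfl
            simp [act, hx2] at hj
          refine Finset.prod_eq_zero (Finset.mem_univ j) ?_
          rw [Bool.ne_false_iff] at hj'
          simp [hf, hne, hj, hj']
      rw [hz, mul_zero]
      exact (phi_pos h0 h1 _).le
  have h2 := Ex_mono (n := n) h0.le h1.le hle
  rw [Ex_mul_left, Ex_prod] at h2
  have hprod : (∏ i, (α * f i true + (1 - α) * f i false)) = α * (1 - α) ^ (act x).card := by
    rw [← Finset.mul_prod_erase Finset.univ _ (Finset.mem_univ i0)]
    have e0 : α * f i0 true + (1 - α) * f i0 false = α := by simp [hf]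
    rw [e0]
    congr 1
    have hsub : act x ⊆ Finset.univ.erase i0 := by
      intro j hj
      rw [Finset.mem_erase]
      refine ⟨?_, Finset.mem_univ _⟩
      rintro rfl
      simp [act, hx2] at hj
    rw [← Finset.prod_subset hsub]
    · rw [← Finset.prod_const]
      refine Finset.prod_congr rfl fun j hj => ?_
      have hne : j ≠ i0 := by
        rintro rfl
        simp [act, hx2] at hj
      simp [hf, hne, hj]
    · intro j hj hj'
      have hne : j ≠ i0 := Finset.ne_of_mem_erase hj
      simp [hf, hne, hj']
  rw [hprod] at h2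
  refine le_trans ?_ h2
  rw [hm, phi]
  have hcard := card_act_le x
  rw [hm] at hcard
  have hpow : (1 - α) ^ (2 * (m + 1)) ≤ (1 - α) ^ (act x).card :=
    pow_le_pow_of_le_one (by linarith) (by linarith) hcard
  have hp := (phi_pos h0 h1 m).le
  calc 2 * (phi α m * (α * (1 - α) ^ (2 * (m + 1)) / 2))
      = phi α m * (α * (1 - α) ^ (2 * (m + 1))) := by ring
    _ ≤ phi α m * (α * (1 - α) ^ (act x).card) :=
        mul_le_mul_of_nonneg_left (mul_le_mul_of_nonneg_left hpow h0.le) hp

/-- A configuration that is not a fixed point has a border. -/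
lemma exists_border {x : Config n} (hx : ¬ IsFixed x) : ∃ j, x j = false ∧ x (j + 1) = true := by
  by_contra hcon
  push Not at hcon
  apply hx
  by_cases hz : ∃ i, x i = false
  · obtain ⟨i, hi⟩ := hz
    have h : ∀ t : ℕ, x (i + t) = false := by
      intro t
      induction t with
      | zero => simpa using hi
      | succ t ih =>
        have := hcon (i + t) ih
        have e : i + ((t + 1 : ℕ) : ZMod n) = i + t + 1 := by push_cast; ring
        rw [e]; simpa using this
    have hall : ∀ j, x j = false := by
      intro j
      have := h (j - i).val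
      rw [ZMod.natCast_val, ZMod.cast_id', id] at this
      have e : i + (j - i) = j := by ring
      rwa [e] at this
    intro u
    funext j
    simp [step, hall, rule210]
  · push Not at hz
    have hall : ∀ j, x j = true := fun j => by
      have := hz j
      rwa [Bool.ne_false_iff] at this
    intro u
    funext j
    simp [step, hall, rule210]

lemma border_sum {x : Config n} (hx : ¬ IsFixed x) : 1 ≤ ∑ j, border x j := by
  obtain ⟨j, hj⟩ := exists_border hx
  calc (1 : ℝ) = border x j := by simp [border, hj]
    _ ≤ ∑ j, border x j := Finset.single_le_sum (f := fun j => border x j)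
        (fun i _ => by simp only [border]; split_ifs <;> norm_num) (Finset.mem_univ j)

/-- A run of zeros bounds the number of ones. -/
lemma ones_card_of_run {x : Config n} {m : ℕ} (hm : m ≤ n) {i : ZMod n}
    (h : ∏ t ∈ range m, zi (x (i + t)) ≠ 0) : (ones x).card + m ≤ n := by
  classical
  have hz : ∀ t ∈ range m, x (i + t) = false := by
    intro t ht
    have := Finset.prod_ne_zero_iff.1 h t ht
    by_contra hx
    rw [Bool.not_eq_false] at hx
    rw [hx] at this
    simp [zi] at this
  have hdisj : Disjoint (ones x) ((range m).image fun t : ℕ => i + (t : ZMod n)) := by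
    rw [Finset.disjoint_left]
    intro j hj hj'
    rw [Finset.mem_image] at hj'
    obtain ⟨t, ht, rfl⟩ := hj'
    simp [ones, hz t ht] at hj
  have hcard : ((range m).image fun t : ℕ => i + (t : ZMod n)).card = m := by
    rw [Finset.card_image_of_injOn, Finset.card_range]
    intro s hs t ht hst
    have h' : (s : ZMod n) = t := add_left_cancel hst
    rw [Finset.mem_coe, Finset.mem_range] at hs ht
    exact natCast_inj_of_lt (by omega) (by omega) h'
  have hle := Finset.card_le_univ (ones x ∪ (range m).image fun t : ℕ => i + (t : ZMod n))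
  rw [Finset.card_union_of_disjoint hdisj, hcard, ZMod.card] at hle
  exact hle

/-- The sum of the absolute values of the certificate. -/
noncomputable def hsum {α : ℝ} (C : RealCert α) : ℝ :=
  ∑ s : Bool, ∑ a : Bool, ∑ b : Bool, ∑ c : Bool, ∑ d : Bool, |C.h s a b c d|

lemma abs_h_le {α : ℝ} (C : RealCert α) (s a b c d : Bool) : |C.h s a b c d| ≤ hsum C := by
  rw [hsum]
  refine le_trans ?_ (Finset.single_le_sum (f := fun s => ∑ a : Bool, ∑ b : Bool, ∑ c : Bool,
    ∑ d : Bool, |C.h s a b c d|) (fun _ _ => by positivity) (Finset.mem_univ s))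
  refine le_trans ?_ (Finset.single_le_sum (f := fun a => ∑ b : Bool, ∑ c : Bool,
    ∑ d : Bool, |C.h s a b c d|) (fun _ _ => by positivity) (Finset.mem_univ a))
  refine le_trans ?_ (Finset.single_le_sum (f := fun b => ∑ c : Bool,
    ∑ d : Bool, |C.h s a b c d|) (fun _ _ => by positivity) (Finset.mem_univ b))
  refine le_trans ?_ (Finset.single_le_sum (f := fun c =>
    ∑ d : Bool, |C.h s a b c d|) (fun _ _ => by positivity) (Finset.mem_univ c))
  exact Finset.single_le_sum (f := fun d => |C.h s a b c d|) (fun _ _ => by positivity)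
    (Finset.mem_univ d)

lemma hsum_nonneg {α : ℝ} (C : RealCert α) : 0 ≤ hsum C := by
  rw [hsum]; positivity

lemma abs_VV_le {α : ℝ} (C : RealCert α) (L : ℕ) (x : Config n) : |VV C L x| ≤ n * hsum C := by
  rw [VV]
  refine le_trans (Finset.abs_sum_le_sum_abs _ _) ?_
  calc ∑ j, |vloc C (x j) (x (j - 1)) (x (j - 2)) (x (j - 3)) (bet (fun i => zi (x i)) L j)|
      ≤ ∑ _j : ZMod n, hsum C := by
        refine Finset.sum_le_sum fun j _ => ?_
        rw [bet_eq_bv, vloc]
        cases bb x L j
        · simp only [bv, Bool.false_eq_true, if_false]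
          simpa using abs_h_le C false _ _ _ _
        · simp only [bv, if_true]
          simpa using abs_h_le C true _ _ _ _
    _ = n * hsum C := by
        rw [Finset.sum_const, Finset.card_univ, ZMod.card, nsmul_eq_mul]

/-- A function bounded by `K n` whose drift is at most `-1` off the fixed points. -/
theorem exists_lyapunov {α : ℝ} (h0 : 0 < α) (h1 : α < 1) : ∃ K : ℝ, 0 ≤ K ∧
    ∀ (n : ℕ) [NeZero n], ∃ V : Config n → ℝ, (∀ x, |V x| ≤ K * n) ∧
      ∀ x, ¬ IsFixed x → Ex α (fun u => V (step u x)) ≤ V x - 1 := by
  obtain ⟨C⟩ := exists_cert h0 h1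
  have hc := C.c_pos
  set H := hsum C with hH
  have hH0 : 0 ≤ H := hsum_nonneg C
  have hp4 := phi_pos h0 h1 4
  refine ⟨(H + 2 * H / phi α 4) / C.c + 1 / phi α 4, by positivity, ?_⟩
  intro n hn
  have hn1 : (1 : ℝ) ≤ n := by exact_mod_cast Nat.one_le_iff_ne_zero.2 hn.out
  by_cases hn5 : 5 ≤ n
  · set k := (n - 5) / 2 with hk
    have hk1 : 2 * k + 5 ≤ n := by omega
    have hk2 : n ≤ 2 * k + 6 := by omega
    set Γ := (2 * (n * H) + C.c) / phi α 4 with hΓ
    have hΓ0 : 0 ≤ Γ := by positivity
    refine ⟨fun x => (VV C (2 * k + 1) x - Γ * phi α (ones x).card) / C.c, ?_, ?_⟩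
    · intro x
      have e1 := abs_VV_le C (2 * k + 1) x
      rw [← hH] at e1
      have e2 : |Γ * phi α (ones x).card| ≤ Γ := by
        rw [abs_of_nonneg (mul_nonneg hΓ0 (phi_pos h0 h1 _).le)]
        calc Γ * phi α (ones x).card ≤ Γ * 1 :=
              mul_le_mul_of_nonneg_left (phi_le_one h0 h1 _) hΓ0
          _ = Γ := mul_one _
      have e3 : |VV C (2 * k + 1) x - Γ * phi α (ones x).card| ≤ n * H + Γ :=
        (abs_sub _ _).trans (add_le_add e1 e2)
      rw [abs_div, abs_of_pos hc, div_le_iff₀ hc]
      refine e3.trans ?_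
      have e4 : ((H + 2 * H / phi α 4) / C.c + 1 / phi α 4) * n * C.c
          = n * H + (2 * (n * H) + C.c * n) / phi α 4 := by
        field_simp
        ring
      rw [e4, hΓ]
      gcongr
      nlinarith
    · intro x hx
      obtain ⟨j, hj1, hj2⟩ := exists_border hx
      have hphi : 2 * phi α (ones x).card ≤ Ex α (fun u => phi α (ones (step u x)).card) :=
        Ex_phi h0 h1 (i0 := j + 1) (by rw [add_sub_cancel_right]; exact hj1) hj2
      have hlin : Ex α (fun u => (VV C (2 * k + 1) (step u x)
          - Γ * phi α (ones (step u x)).card) / C.c)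
          = (Ex α (fun u => VV C (2 * k + 1) (step u x))
            - Γ * Ex α (fun u => phi α (ones (step u x)).card)) / C.c := by
        have : ∀ u : Config n, (VV C (2 * k + 1) (step u x)
          - Γ * phi α (ones (step u x)).card) / C.c
          = (1 / C.c) * (VV C (2 * k + 1) (step u x) - Γ * phi α (ones (step u x)).card) := by
          intro u; ring
        simp only [this]
        rw [Ex_mul_left, Ex_sub, Ex_mul_left]; ring
      rw [hlin]
      have hgoal : Ex α (fun u => VV C (2 * k + 1) (step u x))
            - Γ * Ex α (fun u => phi α (ones (step u x)).card)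
          ≤ VV C (2 * k + 1) x - Γ * phi α (ones x).card - C.c := by
        have hphi0 := (phi_pos h0 h1 (ones x).card)
        have hΓphi : Γ * (2 * phi α (ones x).card)
            ≤ Γ * Ex α (fun u => phi α (ones (step u x)).card) :=
          mul_le_mul_of_nonneg_left hphi hΓ0
        by_cases hrun : ∀ i : ZMod n, ∏ t ∈ range (2 * k + 2), zi (x (i + t)) = 0
        · have hd := drift C h0.le h1.le k hk1 x hrun
          have hb := border_sum hx
          have hcb : C.c * 1 ≤ C.c * ∑ j, border x j := mul_le_mul_of_nonneg_left hb hc.le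
          have : 0 ≤ Γ * phi α (ones x).card := mul_nonneg hΓ0 hphi0.le
          linarith
        · push Not at hrun
          obtain ⟨i, hi⟩ := hrun
          have hcard := ones_card_of_run (by omega) hi
          have h4 : phi α 4 ≤ phi α (ones x).card := phi_anti h0 h1 (by omega)
          have hb1 : Ex α (fun u => VV C (2 * k + 1) (step u x)) ≤ n * H := by
            have := Ex_mono (n := n) h0.le h1.le
              (F := fun u => VV C (2 * k + 1) (step u x)) (G := fun _ => (n : ℝ) * H)
              (fun u => (le_abs_self _).trans (abs_VV_le C _ _))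
            rwa [Ex_const] at this
          have hb2 : - (n * H) ≤ VV C (2 * k + 1) x :=
            (abs_le.1 (abs_VV_le C (2 * k + 1) x)).1
          have hG : 2 * (n * H) + C.c ≤ Γ * phi α (ones x).card := by
            calc 2 * (n * H) + C.c = Γ * phi α 4 := by rw [hΓ]; field_simp
              _ ≤ Γ * phi α (ones x).card := mul_le_mul_of_nonneg_left h4 hΓ0
          linarith
      calc _ ≤ (VV C (2 * k + 1) x - Γ * phi α (ones x).card - C.c) / C.c := by
            gcongr
        _ = _ := by field_simp
  · have hn4 : n ≤ 4 := by omega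
    refine ⟨fun x => - phi α (ones x).card / phi α 4, ?_, ?_⟩
    · intro x
      rw [abs_div, abs_neg, abs_of_pos (phi_pos h0 h1 _), abs_of_pos hp4]
      have e1 : phi α (ones x).card / phi α 4 ≤ 1 / phi α 4 := by
        gcongr
        exact phi_le_one h0 h1 _
      refine e1.trans ?_
      have e2 : 0 ≤ (H + 2 * H / phi α 4) / C.c := by positivity
      calc 1 / phi α 4 ≤ (H + 2 * H / phi α 4) / C.c + 1 / phi α 4 := by linarith
        _ = ((H + 2 * H / phi α 4) / C.c + 1 / phi α 4) * 1 := (mul_one _).symm
        _ ≤ ((H + 2 * H / phi α 4) / C.c + 1 / phi α 4) * n :=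
            mul_le_mul_of_nonneg_left hn1 (by positivity)
    · intro x hx
      obtain ⟨j, hj1, hj2⟩ := exists_border hx
      have hphi : 2 * phi α (ones x).card ≤ Ex α (fun u => phi α (ones (step u x)).card) :=
        Ex_phi h0 h1 (i0 := j + 1) (by rw [add_sub_cancel_right]; exact hj1) hj2
      have hlin : Ex α (fun u => - phi α (ones (step u x)).card / phi α 4)
          = - (1 / phi α 4) * Ex α (fun u => phi α (ones (step u x)).card) := by
        rw [← Ex_mul_left]
        congr 1
        funext u; ring
      rw [hlin]
      have hcard : (ones x).card ≤ 4 := by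
        have := Finset.card_le_univ (ones x)
        rw [ZMod.card] at this
        omega
      have h4 : phi α 4 ≤ phi α (ones x).card := phi_anti h0 h1 hcard
      have e1 : (1 / phi α 4) * (2 * phi α (ones x).card)
          ≤ (1 / phi α 4) * Ex α (fun u => phi α (ones (step u x)).card) :=
        mul_le_mul_of_nonneg_left hphi (by positivity)
      have e2 : 1 ≤ phi α (ones x).card / phi α 4 := by
        rw [le_div_iff₀ hp4]; linarith
      have e3 : (1 / phi α 4) * (2 * phi α (ones x).card)
          = 2 * (phi α (ones x).card / phi α 4) := by ring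
      have e4 : - phi α (ones x).card / phi α 4 = - (phi α (ones x).card / phi α 4) := by ring
      show _ ≤ - phi α (ones x).card / phi α 4 - 1
      rw [e4]
      linarith

end Pool.Agent.H.MP_c6a9e6_pr
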