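import Mathlib
import Pool.Agent.H.MP_c6a9e6_pr.Defs
import Pool.Agent.H.MP_c6a9e6_pr.Lyapunov

/-!
# From the drift inequality to the expected absorption time
-/

namespace Pool.Agent.H.MP_c6a9e6_pr

open MeasureTheory ProbabilityTheory
open scoped ENNReal unitInterval

variable {n : ℕ} [NeZero n]

instance (α : I) : IsProbabilityMeasure (updateLaw α n) := by
  rw [updateLaw]; infer_instance

omit [NeZero n] in
lemma traj_congr (x : Config n) {ω ω' : ℕ × ZMod n → Bool} : ∀ t : ℕ,
    (∀ s < t, ∀ i, ω (s, i) = ω' (s, i)) → traj x ω t = traj x ω' t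
  | 0, _ => rfl
  | t + 1, h => by
    rw [traj, traj, traj_congr x t (fun s hs i => h s (by omega) i)]
    congr 1
    funext i
    exact h t (by omega) i

/-- The update vector at time `t`. -/
def upd (ω : ℕ × ZMod n → Bool) (t : ℕ) : Config n := fun i => ω (t, i)

omit [NeZero n] in
lemma measurable_upd (t : ℕ) : Measurable fun ω : ℕ × ZMod n → Bool => upd ω t :=
  measurable_pi_lambda _ fun i => measurable_pi_apply (t, i)

lemma measurable_traj (x : Config n) : ∀ t : ℕ,
    Measurable fun ω : ℕ × ZMod n → Bool => traj x ω t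
  | 0 => measurable_const
  | t + 1 => by
    have h1 := measurable_traj x t
    have h2 := measurable_upd (n := n) t
    have h3 : Measurable fun p : Config n × Config n => step p.1 p.2 := measurable_of_finite _
    exact h3.comp (h2.prodMk h1)

lemma upd_law (α : I) (t : ℕ) (u : Config n) :
    (updateLaw α n).real {ω | upd ω t = u} = wt (α : ℝ) u := by
  classical
  have hset : {ω : ℕ × ZMod n → Bool | upd ω t = u}
      = Set.pi ((Finset.univ.image fun i : ZMod n => ((t, i) : ℕ × ZMod n)) :
          Finset (ℕ × ZMod n)) (fun p => {u p.2}) := by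
    ext ω
    simp only [Set.mem_ofPred_eq, Set.mem_pi, Finset.coe_image, Finset.coe_univ, Set.image_univ,
      Set.mem_range, Set.mem_singleton_iff, forall_exists_index, forall_apply_eq_imp_iff]
    constructor
    · intro h i
      rw [← h]; rfl
    · intro h
      funext i
      exact h i
  rw [measureReal_def, hset, updateLaw, Measure.infinitePi_pi]
  · rw [Finset.prod_image]
    · rw [ENNReal.toReal_prod, wt]
      refine Finset.prod_congr rfl fun i _ => ?_
      cases u i
      · simp [bernoulliMeasure_def]
      · simp [bernoulliMeasure_def]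
    · intro i _ j _ h
      exact (Prod.mk.inj h).2
  · intro i _
    exact measurableSet_singleton _

lemma indep_step (α : I) (x : Config n) (t : ℕ) :
    IndepFun (fun ω : ℕ × ZMod n → Bool => traj x ω t) (fun ω => upd ω t) (updateLaw α n) := by
  classical
  have h1 : iIndepFun (fun (p : ℕ × ZMod n) (ω : ℕ × ZMod n → Bool) => ω p) (updateLaw α n) :=
    iIndepFun_infinitePi (X := fun (_ : ℕ × ZMod n) (b : Bool) => b) (fun _ => measurable_id)
  set S : Finset (ℕ × ZMod n) := (Finset.range t) ×ˢ Finset.univ with hS
  set S' : Finset (ℕ × ZMod n) := {t} ×ˢ Finset.univ with hS'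
  have hdisj : Disjoint S S' := by
    rw [Finset.disjoint_left]
    rintro ⟨s, i⟩ h h'
    simp only [hS, hS', Finset.mem_product, Finset.mem_range, Finset.mem_singleton] at h h'
    omega
  have h2 := h1.indepFun_finset S S' hdisj (fun p => measurable_pi_apply p)
  set φ : (S → Bool) → Config n := fun v =>
    traj x (fun p => if h : p ∈ S then v ⟨p, h⟩ else false) t with hφ
  set ψ : (S' → Bool) → Config n := fun v i => v ⟨(t, i), by simp [hS']⟩ with hψ
  have h3 := h2.comp (φ := φ) (ψ := ψ) (measurable_of_finite _) (measurable_of_finite _)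
  have e1 : (φ ∘ fun (a : ℕ × ZMod n → Bool) (i : S) => a i) = fun ω => traj x ω t := by
    funext ω
    simp only [Function.comp, hφ]
    refine traj_congr x t fun s hs i => ?_
    have : ((s, i) : ℕ × ZMod n) ∈ S := by simp [hS, hs]
    rw [dif_pos this]
  have e2 : (ψ ∘ fun (a : ℕ × ZMod n → Bool) (i : S') => a i) = fun ω => upd ω t := by
    funext ω i
    rfl
  rw [e1, e2] at h3
  exact h3

/-- One step of the chain, in expectation. -/
lemma integral_succ (α : I) (x : Config n) (t : ℕ) (F : Config n → ℝ) :
    ∫ ω, F (traj x ω (t + 1)) ∂(updateLaw α n)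
      = ∫ ω, Ex (α : ℝ) (fun u => F (step u (traj x ω t))) ∂(updateLaw α n) := by
  classical
  set P := updateLaw α n with hP
  have hm : Measurable fun ω : ℕ × ZMod n → Bool => (upd ω t, traj x ω t) :=
    (measurable_upd t).prodMk (measurable_traj x t)
  have e1 : ∫ ω, F (traj x ω (t + 1)) ∂P
      = ∫ p : Config n × Config n, F (step p.1 p.2) ∂(P.map fun ω => (upd ω t, traj x ω t)) := by
    rw [integral_map hm.aemeasurable]
    · rfl
    · exact (measurable_of_finite _).aestronglyMeasurable
  have e2 : ∫ ω, Ex (α : ℝ) (fun u => F (step u (traj x ω t))) ∂P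
      = ∫ y : Config n, Ex (α : ℝ) (fun u => F (step u y)) ∂(P.map fun ω => traj x ω t) := by
    rw [integral_map (measurable_traj x t).aemeasurable]
    exact (measurable_of_finite _).aestronglyMeasurable
  have : IsProbabilityMeasure (P.map fun ω => (upd ω t, traj x ω t)) :=
    Measure.isProbabilityMeasure_map hm.aemeasurable
  have : IsProbabilityMeasure (P.map fun ω => traj x ω t) :=
    Measure.isProbabilityMeasure_map (measurable_traj x t).aemeasurable
  rw [e1, e2, integral_fintype (Integrable.of_finite), integral_fintype (Integrable.of_finite)]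
  rw [Fintype.sum_prod_type, Finset.sum_comm]
  refine Finset.sum_congr rfl fun y _ => ?_
  rw [Ex, smul_eq_mul, Finset.mul_sum]
  refine Finset.sum_congr rfl fun u _ => ?_
  rw [smul_eq_mul]
  have hpr : (P.map fun ω => (upd ω t, traj x ω t)).real {(u, y)}
      = (P.map fun ω => traj x ω t).real {y} * wt (α : ℝ) u := by
    rw [map_measureReal_apply hm (measurableSet_singleton _),
      map_measureReal_apply (measurable_traj x t) (measurableSet_singleton _)]
    rw [← upd_law α t u]
    have hset : (fun ω : ℕ × ZMod n → Bool => (upd ω t, traj x ω t)) ⁻¹' {(u, y)}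
        = (fun ω => traj x ω t) ⁻¹' {y} ∩ (fun ω => upd ω t) ⁻¹' {u} := by
      ext ω
      simp only [Set.mem_preimage, Set.mem_singleton_iff, Prod.mk.injEq, Set.mem_inter_iff]
      exact and_comm
    rw [hset, measureReal_def,
      (indep_step α x t).measure_inter_preimage_eq_mul _ _ (measurableSet_singleton _)
        (measurableSet_singleton _), ENNReal.toReal_mul]
    rfl
  rw [hpr]
  ring

/-- The event that the chain is not yet at a fixed point. -/
def live (x : Config n) (t : ℕ) : Set (ℕ × ZMod n → Bool) := {ω | ¬ IsFixed (traj x ω t)}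

lemma measurableSet_live (x : Config n) (t : ℕ) : MeasurableSet (live x t) := by
  have h := measurable_traj x t
  exact h (Set.toFinite {y : Config n | ¬ IsFixed y}).measurableSet

omit [NeZero n] in
lemma absorptionTime_le (x : Config n) (ω : ℕ × ZMod n → Bool) :
    absorptionTime x ω ≤ ∑' t, (live x t).indicator (fun _ => (1 : ℝ≥0∞)) ω := by
  classical
  by_cases h : ∃ t, IsFixed (traj x ω t)
  · have h1 : absorptionTime x ω ≤ (Nat.find h : ℝ≥0∞) :=
      iInf₂_le (Nat.find h) (Nat.find_spec h)
    refine h1.trans ?_
    calc ((Nat.find h : ℕ) : ℝ≥0∞)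
        = ∑ t ∈ Finset.range (Nat.find h), (live x t).indicator (fun _ => (1 : ℝ≥0∞)) ω := by
          rw [Finset.sum_congr rfl (g := fun _ => (1 : ℝ≥0∞))]
          · simp
          · intro t ht
            rw [Finset.mem_range] at ht
            exact Set.indicator_of_mem (Nat.find_min h ht) _
      _ ≤ _ := ENNReal.sum_le_tsum _
  · push Not at h
    have : ∀ t, (live x t).indicator (fun _ => (1 : ℝ≥0∞)) ω = 1 := fun t =>
      Set.indicator_of_mem (h t) _
    simp only [this]
    rw [ENNReal.tsum_const_eq_top_of_ne_zero one_ne_zero]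
    exact le_top

/-- The main bound: a bounded function with drift at most `-1` off the fixed points. -/
theorem lintegral_absorptionTime_le (α : I) (V : Config n → ℝ) {B : ℝ} (hB : ∀ y, |V y| ≤ B)
    (hV : ∀ y, ¬ IsFixed y → Ex (α : ℝ) (fun u => V (step u y)) ≤ V y - 1) (x : Config n) :
    ∫⁻ ω, absorptionTime x ω ∂(updateLaw α n) ≤ ENNReal.ofReal (2 * B) := by
  classical
  set P := updateLaw α n with hP
  have hint : ∀ (F : Config n → ℝ) (t : ℕ), Integrable (fun ω => F (traj x ω t)) P := by
    intro F t
    have : IsProbabilityMeasure (P.map fun ω => traj x ω t) :=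
      Measure.isProbabilityMeasure_map (measurable_traj x t).aemeasurable
    have h : Integrable F (P.map fun ω => traj x ω t) := Integrable.of_finite
    exact h.comp_measurable (measurable_traj x t)
  -- one step
  have hone : ∀ t, ∫ ω, V (traj x ω (t + 1)) ∂P ≤ ∫ ω, V (traj x ω t) ∂P - P.real (live x t) := by
    intro t
    rw [integral_succ]
    set G : Config n → ℝ := fun y => if IsFixed y then (0 : ℝ) else 1 with hG
    have hreal : P.real (live x t) = ∫ ω, G (traj x ω t) ∂P := by
      rw [← integral_indicator_one (measurableSet_live x t)]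
      refine integral_congr_ae (Filter.Eventually.of_forall fun ω => ?_)
      by_cases h : IsFixed (traj x ω t)
      · have : ω ∉ live x t := fun h' => h' h
        simp [this, h, hG]
      · have : ω ∈ live x t := h
        simp [this, h, hG]
    have hsub : ∫ ω, V (traj x ω t) ∂P - ∫ ω, G (traj x ω t) ∂P
        = ∫ ω, (V (traj x ω t) - G (traj x ω t)) ∂P :=
      (integral_sub (hint V t) (hint G t)).symm
    rw [hreal, hsub]
    refine integral_mono (hint (fun y => Ex (α : ℝ) fun u => V (step u y)) t)
      ((hint V t).sub (hint G t)) fun ω => ?_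
    by_cases h : IsFixed (traj x ω t)
    · have : ∀ u, V (step u (traj x ω t)) = V (traj x ω t) := fun u => by rw [h u]
      simp only [this, Ex_const, h, if_true, sub_zero, hG]
      exact le_refl _
    · simp only [h, if_false, hG]
      exact hV _ h
  have hsum : ∀ N : ℕ, ∑ t ∈ Finset.range N, P.real (live x t) ≤
      V x - ∫ ω, V (traj x ω N) ∂P := by
    intro N
    induction N with
    | zero => simp [traj]
    | succ N ih =>
      rw [Finset.sum_range_succ]
      have := hone N
      linarith
  have hlow : ∀ N : ℕ, -B ≤ ∫ ω, V (traj x ω N) ∂P := by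
    intro N
    have h := integral_mono (μ := P) (integrable_const (-B)) (hint V N)
      (fun ω => (abs_le.1 (hB (traj x ω N))).1)
    simpa using h
  calc ∫⁻ ω, absorptionTime x ω ∂P
      ≤ ∫⁻ ω, ∑' t, (live x t).indicator (fun _ => (1 : ℝ≥0∞)) ω ∂P :=
        lintegral_mono fun ω => absorptionTime_le x ω
    _ = ∑' t, ∫⁻ ω, (live x t).indicator (fun _ => (1 : ℝ≥0∞)) ω ∂P :=
        lintegral_tsum fun t => (measurable_const.indicator (measurableSet_live x t)).aemeasurable
    _ = ∑' t, P (live x t) := by
        congr 1
        funext t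
        exact lintegral_indicator_one (measurableSet_live x t)
    _ ≤ ENNReal.ofReal (2 * B) := by
        refine ENNReal.tsum_le_of_sum_range_le fun N => ?_
        have h1 : ∑ t ∈ Finset.range N, P (live x t)
            = ENNReal.ofReal (∑ t ∈ Finset.range N, P.real (live x t)) := by
          rw [ENNReal.ofReal_sum_of_nonneg fun t _ => measureReal_nonneg]
          refine Finset.sum_congr rfl fun t _ => ?_
          rw [ofReal_measureReal]
        rw [h1]
        refine ENNReal.ofReal_le_ofReal ?_
        have := hsum N
        have := hlow N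
        have := (abs_le.1 (hB x)).2
        linarith

/-- Linear relaxation. -/
theorem relaxation_linear (α : I) (h0 : 0 < α) (h1 : α < 1) :
    ∃ C : ℝ, ∀ n : ℕ, 3 ≤ n → relaxationTime α n ≤ ENNReal.ofReal (C * n) := by
  obtain ⟨K, hK, hV⟩ := exists_lyapunov (α := (α : ℝ)) (by exact_mod_cast h0)
    (by exact_mod_cast h1)
  refine ⟨2 * K, fun n hn => ?_⟩
  have : NeZero n := ⟨by omega⟩
  obtain ⟨V, hV1, hV2⟩ := hV n
  refine iSup_le fun x => ?_
  have := lintegral_absorptionTime_le α V hV1 hV2 x
  rwa [← mul_assoc] at this

end Pool.Agent.H.MP_c6a9e6_pr
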